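import Pool.Agent.Y192.KC.Stm2
import Pool.Agent.Y192.OG.C6
import Pool.Agent.Y192.OG.D1
import Pool.Agent.Y809.OG.Split

/-!
The theorem for curves for a squarefree polynomial over the field of the characters which are
trivial on the stabilizer (helper32, job KG2 of helper192).
-/

set_option autoImplicit false

namespace Pool.Agent.Y32.KG

open MvPolynomial Pool.Agent.W603.BP Pool.Agent.Y192.KC Pool.Agent.Y192.OG

section

variable {N : ℕ} {K : Type} [Field K] [Algebra ℂ K]

omit [Algebra ℂ K] in
lemma xm_coe_add (x : Fin N → Kˣ) (m m' : Fin N → ℤ) :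
    (xm x (m + m') : K) = (xm x m : K) * (xm x m' : K) := by
  rw [xm_add, Units.val_mul]

lemma xm_coe_neg (x : Fin N → Kˣ) (m : Fin N → ℤ) : (xm x (-m) : K) = (xm x m : K)⁻¹ := by
  rw [Pool.Agent.Y192.OG.xm_neg, Units.val_inv_eq_inv_val]

omit [Algebra ℂ K] in
lemma xm_nsmul (x : Fin N → Kˣ) (n : ℕ) (m : Fin N → ℤ) :
    (xm x ((n : ℤ) • m) : K) = (xm x m : K) ^ n := by
  induction n with
  | zero => rw [Nat.cast_zero, zero_smul, xm_zero, pow_zero, Units.val_one]
  | succ n ih => rw [Nat.cast_succ, add_smul, one_smul, xm_coe_add, ih, pow_succ]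

/-- the exponents of the monomials which are algebraic over a field -/
def algM (x : Fin N → Kˣ) (E : IntermediateField ℂ K) : Submodule ℤ (Fin N → ℤ) :=
  AddSubgroup.toIntSubmodule
    { carrier := {m | IsAlgebraic E (xm x m : K)}
      add_mem' := by
        intro a b ha hb
        show IsAlgebraic E (xm x (a + b) : K)
        rw [xm_coe_add]
        exact IsAlgebraic.mul ha hb
      zero_mem' := by
        show IsAlgebraic E (xm x 0 : K)
        rw [xm_zero, Units.val_one]
        exact isAlgebraic_one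
      neg_mem' := by
        intro a ha
        show IsAlgebraic E (xm x (-a) : K)
        rw [xm_coe_neg]
        exact IsAlgebraic.inv ha }

lemma mem_algM {x : Fin N → Kˣ} {E : IntermediateField ℂ K} {m : Fin N → ℤ} :
    m ∈ algM x E ↔ IsAlgebraic E (xm x m : K) := Iff.rfl

lemma sat_algM (x : Fin N → Kˣ) (E : IntermediateField ℂ K) : Sat (algM x E) := by
  have key : ∀ (n : ℕ) (m : Fin N → ℤ), n ≠ 0 → (n : ℤ) • m ∈ algM x E → m ∈ algM x E := by
    intro n m hn h
    rw [mem_algM, xm_nsmul] at h
    exact (IsAlgebraic.of_pow (Nat.pos_of_ne_zero hn) h)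
  intro n m hn h
  rcases Int.natAbs_eq n with h1 | h1
  · rw [h1] at h
    exact key n.natAbs m (Int.natAbs_ne_zero.2 hn) h
  · rw [h1, neg_smul] at h
    exact key n.natAbs m (Int.natAbs_ne_zero.2 hn) ((algM x E).neg_mem_iff.1 h)

end

theorem t_T (h_gr : St_gr) (h_comp : St_comp) : St_T := by
  classical
  intro N K _ _ x Γ₀ _ hom hleast b bt co hS F g f hF hsq hg hf hl
  obtain ⟨hind, _⟩ := Pool.Agent.Y809.OG.t_split N K x Γ₀ b bt co hS hom
  have haev : aeval (fun j => (xm x (bt j) : K)) F ≠ 0 := by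
    intro h0
    exact hF (hind (by rw [h0, map_zero]))
  have hg' : (g : K) ≠ 0 := fun h0 => hg (Subtype.ext h0)
  have hf0 : ep x f ≠ 0 := by
    rw [hf]
    exact mul_ne_zero hg' haev
  -- the ring
  let R : Subalgebra ℂ K := (ep x).range
  let j : Lau N →ₐ[ℂ] R := (ep x).rangeRestrict
  have hj : ∀ g, (j g : K) = ep x g := fun g => rfl
  have hjs : Function.Surjective j := (ep x).rangeRestrict_surjective
  have hker : RingHom.ker j = RingHom.ker (ep x) := by
    ext g
    rw [RingHom.mem_ker, RingHom.mem_ker, ← hj]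
    constructor
    · intro h
      rw [h]
      rfl
    · intro h
      exact Subtype.ext h
  -- the exponents
  let tt : (Fin b →₀ ℕ) → Fin N → ℤ := fun c => ∑ i, (c i : ℤ) • bt i
  have hco : ∀ c, co (tt c) = fun i => (c i : ℤ) := by
    intro c
    show co (∑ i, (c i : ℤ) • bt i) = _
    rw [map_sum]
    funext i
    rw [Finset.sum_apply, Finset.sum_eq_single i]
    · rw [map_zsmul, hS.bt, Pi.smul_apply, Pi.single_eq_same, smul_eq_mul, mul_one]
    · intro k _ hk
      rw [map_zsmul, hS.bt, Pi.smul_apply, Pi.single_eq_of_ne (Ne.symm hk), smul_zero]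
    · intro h
      exact absurd (Finset.mem_univ i) h
  let en : Fin F.support.card ≃ F.support := F.support.equivFin.symm
  let h : Fin F.support.card → R := fun i => j (AddMonoidAlgebra.single (tt (en i).1) 1)
  have hcn : ∀ c ∈ F.support, comp Γ₀ (Γ₀.mkQ (tt c)) f ∉ RingHom.ker (ep x) := fun c hc =>
    h_comp N K x Γ₀ b bt co hS hom f g F hg hf (tt c) ⟨c, hc, hco c⟩
  -- the field
  let Ef : IntermediateField ℂ K :=
    IntermediateField.adjoin ℂ (Pool.Agent.Y192.OG.E.Gn K j f 1 h Γ₀)
  have hE1 : ∀ φ ∈ Γ₀, (xm x φ : K) ∈ Ef := by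
    intro φ hφ
    refine IntermediateField.subset_adjoin _ _ (Or.inr ⟨φ, hφ, ?_⟩)
    change _ = (j _ : K)
    rw [hj, ep_single_one]
  have hE2 : ∀ c ∈ F.support, (xm x (tt c) : K) / ep x f ∈ Ef := by
    intro c hc
    refine IntermediateField.subset_adjoin _ _ (Or.inl ⟨en.symm ⟨c, hc⟩, ?_⟩)
    change (h _ : K) / (j f : K) ^ 1 = _
    rw [pow_one, hj]
    congr 1
    show (j _ : K) = _
    rw [hj, ep_single_one, Equiv.apply_symm_apply]
  have hΔ1 : Γ₀ ≤ algM x Ef := by
    intro φ hφ
    rw [mem_algM]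
    exact isAlgebraic_algebraMap (⟨_, hE1 φ hφ⟩ : Ef)
  have hΔ2 : ∀ c ∈ F.support, ∀ c' ∈ F.support, tt c - tt c' ∈ algM x Ef := by
    intro c hc c' hc'
    rw [mem_algM]
    have h1 : (xm x (tt c - tt c') : K) ∈ Ef := by
      have h2 := Ef.div_mem (hE2 c hc) (hE2 c' hc')
      have h3 : (xm x (tt c - tt c') : K) =
          (xm x (tt c) : K) / ep x f / ((xm x (tt c') : K) / ep x f) := by
        rw [sub_eq_add_neg, xm_coe_add, xm_coe_neg]
        have h4 : (xm x (tt c') : K) ≠ 0 := (xm x (tt c')).ne_zero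
        field_simp
      rw [h3]
      exact h2
    exact isAlgebraic_algebraMap (⟨_, h1⟩ : Ef)
  have hΔ : algM x Ef = ⊤ := by
    by_contra htop
    obtain ⟨L, hL0, hL⟩ := exists_func (sat_algM x Ef) htop
    have hLadd : ∀ m m' : Fin N → ℤ, ∑ i, L i * (m + m') i = ∑ i, L i * m i + ∑ i, L i * m' i := by
      intro m m'
      rw [← Finset.sum_add_distrib]
      exact Finset.sum_congr rfl fun i _ => by rw [Pi.add_apply, mul_add]
    let Lf : (Fin N → ℤ) →+ ℤ :=
      { toFun := fun m => ∑ i, L i * m i
        map_zero' := by simp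
        map_add' := hLadd }
    have hLf : ∀ m, Lf m = ∑ i, L i * m i := fun m => rfl
    have hLt : ∀ c, Lf (tt c) = ∑ i, Lf (bt i) * c i := by
      intro c
      show Lf (∑ i, (c i : ℤ) • bt i) = _
      rw [map_sum]
      refine Finset.sum_congr rfl fun i _ => ?_
      rw [map_zsmul, smul_eq_mul, mul_comm]
    have hLm : ∀ m, Lf m = ∑ i, Lf (bt i) * co m i := by
      intro m
      have h1 : m - ∑ i, co m i • bt i ∈ Γ₀ := by
        rw [← hS.ker, map_sub, sub_eq_zero, map_sum]
        funext i
        rw [Finset.sum_apply, Finset.sum_eq_single i]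
        · rw [map_zsmul, hS.bt, Pi.smul_apply, Pi.single_eq_same, smul_eq_mul, mul_one]
        · intro k _ hk
          rw [map_zsmul, hS.bt, Pi.smul_apply, Pi.single_eq_of_ne (Ne.symm hk), smul_zero]
        · intro h
          exact absurd (Finset.mem_univ i) h
      have h2 := hL _ (hΔ1 h1)
      rw [← hLf, map_sub, sub_eq_zero, map_sum] at h2
      rw [h2]
      refine Finset.sum_congr rfl fun i _ => ?_
      rw [map_zsmul, smul_eq_mul, mul_comm]
    apply hl (fun i => Lf (bt i))
    · intro h0
      apply hL0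
      funext i
      have h1 : Lf (Pi.single i 1) = L i := by
        rw [hLf, Finset.sum_eq_single i]
        · rw [Pi.single_eq_same, mul_one]
        · intro k _ hk
          rw [Pi.single_eq_of_ne hk, mul_zero]
        · intro h
          exact absurd (Finset.mem_univ i) h
      rw [← h1, hLm, Pi.zero_apply]
      refine Finset.sum_eq_zero fun k _ => ?_
      rw [show Lf (bt k) = 0 from congrFun h0 k, zero_mul]
    · obtain ⟨c0, hc0⟩ := MvPolynomial.support_nonempty.2 hF
      refine ⟨Lf (tt c0), fun c hc => ?_⟩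
      rw [← hLt c]
      have h1 := hL _ (hΔ2 c hc c0 hc0)
      rw [← hLf, map_sub, sub_eq_zero] at h1
      exact h1
  -- the theorem for curves
  have hinj : Function.Injective (algebraMap R K) := Subtype.val_injective
  obtain ⟨μ, G, hG, hcurves⟩ := Pool.Agent.Y192.OG.E.curvesE (K := K) (R := R) (j := j) (f := f) (k := 1) (h := h)
    (Γ₀ := Γ₀) hinj (RingHom.isIntegral_of_surjective _ hjs) (by
      intro h0
      apply hf0
      rw [← hj, h0]
      rfl) (by
      rw [hker]
      exact h_gr N K x Γ₀ b bt co hS hom f g F hg hF hsq hf) (by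
      rw [hker]
      exact hleast) (by
      rw [hker]
      exact hom) (by
      intro i
      refine ⟨1, fun _ => -AddMonoidAlgebra.single (tt (en i).1) 1, ?_, ?_⟩
      · rw [Finset.Icc_self, Finset.sum_singleton, pow_one, Nat.sub_self, pow_zero, mul_one,
          map_neg]
        exact add_neg_cancel _
      · intro l hl' m hm
        have hl1 : l = 1 := by
          have := Finset.mem_Icc.1 hl'
          omega
        subst hl1
        have hm1 : m = tt (en i).1 := by
          rw [AddMonoidAlgebra.coeff_neg, Finsupp.support_neg] at hm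
          have h2 := Finsupp.support_single_subset hm
          exact Finset.mem_singleton.1 h2
        rw [hm1, hker]
        refine ⟨1, le_rfl, fun _ => tt (en i).1, fun _ => hcn _ (en i).2, ?_⟩
        have h3 : ((1 : ℕ) : ℤ) • tt (en i).1 - ∑ _l : Fin (1 * (1 * 1)), tt (en i).1 = 0 := by
          simp
        rw [h3]
        exact Γ₀.zero_mem) (by
      intro i
      have h1 : algebraMap R K (j (AddMonoidAlgebra.single (Pi.single i 1) 1)) = (x i : K) := by
        change (j _ : K) = _
        rw [hj, ep_single_one, xm_single]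
      rw [h1]
      have h2 : (Pi.single i 1 : Fin N → ℤ) ∈ algM x Ef := by
        rw [hΔ]
        exact Submodule.mem_top
      rw [mem_algM, xm_single] at h2
      open scoped IntermediateField.algebraAdjoinAdjoin in
      exact (IsFractionRing.isAlgebraic_iff (Algebra.adjoin ℂ (Pool.Agent.Y192.OG.E.Gn K j f 1 h Γ₀))
        (IntermediateField.adjoin ℂ (Pool.Agent.Y192.OG.E.Gn K j f 1 h Γ₀)) K).2 h2)
  refine ⟨μ, G, ?_, ?_⟩
  · intro h0
    apply hG
    exact Subtype.ext h0
  · intro c hc1 hc2 hc3 hc4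
    refine hcurves c ⟨hc1, AlgHom.liftOfSurjective j hjs c.ev ?_, ?_, ?_⟩ hc4
    · intro g hg
      have hg1 : g ∈ RingHom.ker (ep x) := by
        rw [← hker]
        exact hg
      exact hc2 g ((RingHom.mem_ker).1 hg1)
    · intro g
      exact AlgHom.liftOfSurjective_apply _ _ _ _ _
    · intro i z hz h1
      exact absurd h1 (hc3 z hz)

end Pool.Agent.Y32.KG
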