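import Pool.Agent.Y537.KC.U

/-!
The bad part of a family of elements of a factorial ring, for valuations of subrings (helper32,
job KG3 of helper192, after `Pool.Agent.Y537.KC.bad`).
-/

set_option autoImplicit false

namespace Pool.Agent.Y32.KG

open UniqueFactorizationMonoid Pool.Agent.Y537.KC

section ext

variable {A : Type*} [CommRing A] (B : Subring A) (v : B → WithTop ℤ)

open Classical in
/-- the extension by zero of a function on a subring -/
noncomputable def ex (a : A) : WithTop ℤ := if h : a ∈ B then v ⟨a, h⟩ else 0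

variable {B v}

lemma ex_of_mem {a : A} (h : a ∈ B) : ex B v a = v ⟨a, h⟩ := dif_pos h

lemma ex_coe (a : B) : ex B v (a : A) = v a := dif_pos a.2

lemma ex_nonneg (hv : Val v) (a : A) : 0 ≤ ex B v a := by
  unfold ex
  split_ifs
  · exact hv.nonneg _
  · exact le_rfl

lemma ex_one (hv : Val v) : ex B v 1 = 0 := by
  rw [ex_of_mem B.one_mem]
  exact hv.one

lemma ex_mul (hv : Val v) {a b : A} (ha : a ∈ B) (hb : b ∈ B) :
    ex B v (a * b) = ex B v a + ex B v b := by
  rw [ex_of_mem ha, ex_of_mem hb, ex_of_mem (B.mul_mem ha hb), ← hv.mul]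
  rfl

lemma ex_prod (hv : Val v) {κ : Type*} (s : Finset κ) (f : κ → A) (hf : ∀ i ∈ s, f i ∈ B) :
    ex B v (∏ i ∈ s, f i) = ∑ i ∈ s, ex B v (f i) := by
  classical
  induction s using Finset.induction_on with
  | empty => rw [Finset.prod_empty, Finset.sum_empty, ex_one hv]
  | insert a s ha ih =>
    rw [Finset.prod_insert ha, Finset.sum_insert ha,
      ex_mul hv (hf a (Finset.mem_insert_self _ _))
        (B.prod_mem fun i hi => hf i (Finset.mem_insert_of_mem hi)),
      ih fun i hi => hf i (Finset.mem_insert_of_mem hi)]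

lemma ex_pow (hv : Val v) {a : A} (ha : a ∈ B) {α : ℤ} (h : ex B v a = (α : WithTop ℤ)) (n : ℕ) :
    ex B v (a ^ n) = ((n * α : ℤ) : WithTop ℤ) := by
  induction n with
  | zero => rw [pow_zero, ex_one hv]; simp
  | succ n ih =>
    rw [pow_succ, ex_mul hv (B.pow_mem ha n) ha, ih, h, ← WithTop.coe_add]
    congr 1
    push_cast
    ring

/-- divisors of an element with value zero -/
lemma ex_dvd (hv : Val v) {a c : A} (ha : a ∈ B) (hc : c ∈ B) (h : ex B v (a * c) = 0) :
    ex B v a = 0 := by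
  rw [ex_mul hv ha hc] at h
  have h1 := ex_nonneg hv a
  have h2 := ex_nonneg hv c
  have h3 : ex B v a ≠ ⊤ := fun h' => by rw [h', top_add] at h; exact WithTop.top_ne_zero h
  have h4 : ex B v c ≠ ⊤ := fun h' => by rw [h', add_top] at h; exact WithTop.top_ne_zero h
  lift ex B v a to ℤ using h3 with α
  lift ex B v c to ℤ using h4 with β
  norm_cast at *
  omega

/-- divisors of an element with finite value -/
lemma ex_top (hv : Val v) {a c : A} (ha : a ∈ B) (hc : c ∈ B) (h : ex B v (a * c) ≠ ⊤) :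
    ex B v a ≠ ⊤ := by
  intro h'
  apply h
  rw [ex_mul hv ha hc, h', top_add]

end ext

/-- The bad part. -/
theorem badG {A ι : Type*} [CommRing A] [IsDomain A] [UniqueFactorizationMonoid A] (x : ι → A)
    (hx : ∀ i, Prime (x i)) {r : ℕ} (F : Fin r → A) (hF : ∀ j, F j ≠ 0) (e : Fin r → ℕ) :
    ∃ (g : A) (H S : Fin r → A) (m0 : ℕ) (Z : Finset A), Squarefree g ∧
    (∀ j, F j = H j * S j ^ e j) ∧ (∀ W : A → Prop, Clo x W → W g → ∀ j, W (H j)) ∧
    ∀ m, m0 ≤ m → ∀ (B : Subring A) (v : B → WithTop ℤ), Val v → (∀ a ∈ Z, a ∈ B) →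
      (∀ i, x i ∈ B) → (∀ i, ex B v (x i) = 0) →
      (∀ j, F j ∈ B) →
      (∀ j, ∃ a : ℤ, ex B v (F j) = (((if e j = 0 then m else e j) * a : ℤ) : WithTop ℤ)) →
      ex B v g ≠ 1 := by
  classical
  let _ : NormalizationMonoid A := (UniqueFactorizationMonoid.strongNormalizationMonoid
    (α := A)).toNormalizationMonoid
  set PP : A := ∏ j, F j with hPP
  have hPP0 : PP ≠ 0 := Finset.prod_ne_zero_iff.2 fun j _ => hF j
  let c : Fin r → A → ℕ := fun j p => (normalizedFactors (F j)).count p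
  let Bad : A → Prop := fun p => (∀ i, ¬ Associated p (x i)) ∧ ∃ j, ¬ (e j ∣ c j p)
  let S : Finset A := (normalizedFactors PP).toFinset.filter Bad
  have hS : ∀ p, p ∈ S ↔ (Irreducible p ∧ normalize p = p ∧ p ∣ PP) ∧ Bad p := by
    intro p
    rw [Finset.mem_filter, Multiset.mem_toFinset, mem_normalizedFactors_iff' hPP0]
  have hFd : ∀ j, F j ∣ PP := fun j => Finset.dvd_prod_of_mem F (Finset.mem_univ j)
  let g : A := ∏ p ∈ S, p
  have hg0 : g ≠ 0 := Finset.prod_ne_zero_iff.2 fun p hp => ((hS p).1 hp).1.1.ne_zero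
  have hpg : ∀ p ∈ S, p ∣ g := fun p hp => Finset.dvd_prod_of_mem (fun p => p) hp
  -- decomposition of the elements
  have dec : ∀ j, ∃ u : Aˣ, F j = u * ∏ p ∈ (normalizedFactors (F j)).toFinset,
      p ^ (normalizedFactors (F j)).count p := by
    intro j
    obtain ⟨u, hu⟩ := prod_normalizedFactors (hF j)
    refine ⟨u, ?_⟩
    rw [← Finset.prod_multiset_count, mul_comm, hu]
  choose u hu using dec
  let T : Fin r → Finset A := fun j => (normalizedFactors (F j)).toFinset
  let R : A → Prop := fun p => Bad p ∨ ∃ i, Associated p (x i)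
  -- the cofactors of the primes which are associated to variables
  have hcof : ∀ p : A, ∃ q : A, (∃ i, Associated p (x i)) → ∃ i, p * q = x i := by
    intro p
    by_cases h : ∃ i, Associated p (x i)
    · obtain ⟨i, w, hw⟩ := h
      exact ⟨w, fun _ => ⟨i, hw⟩⟩
    · exact ⟨0, fun h' => absurd h' h⟩
  choose cof hcof using hcof
  -- the finite set
  let Tall : Finset A := Finset.univ.biUnion T
  let Z : Finset A := Tall ∪ Tall.image cof ∪ S ∪ (Finset.univ.image fun j => ((u j : Aˣ) : A)) ∪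
    (Finset.univ.image fun j => (((u j)⁻¹ : Aˣ) : A))
  have hTall : ∀ j, ∀ p ∈ T j, p ∈ Tall := fun j p hp =>
    Finset.mem_biUnion.2 ⟨j, Finset.mem_univ _, hp⟩
  have hZT : ∀ j, ∀ p ∈ T j, p ∈ Z := by
    intro j p hp
    simp only [Z, Finset.mem_union]
    exact Or.inl (Or.inl (Or.inl (Or.inl (hTall j p hp))))
  have hZc : ∀ j, ∀ p ∈ T j, cof p ∈ Z := by
    intro j p hp
    simp only [Z, Finset.mem_union]
    exact Or.inl (Or.inl (Or.inl (Or.inr (Finset.mem_image_of_mem _ (hTall j p hp)))))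
  have hZS : ∀ p ∈ S, p ∈ Z := by
    intro p hp
    simp only [Z, Finset.mem_union]
    exact Or.inl (Or.inl (Or.inr hp))
  have hZu : ∀ j, ((u j : Aˣ) : A) ∈ Z := by
    intro j
    simp only [Z, Finset.mem_union]
    exact Or.inl (Or.inr (Finset.mem_image_of_mem _ (Finset.mem_univ j)))
  have hZv : ∀ j, (((u j)⁻¹ : Aˣ) : A) ∈ Z := by
    intro j
    simp only [Z, Finset.mem_union]
    exact Or.inr (Finset.mem_image_of_mem (fun j => (((u j)⁻¹ : Aˣ) : A)) (Finset.mem_univ j))
  refine ⟨g, fun j => u j * ∏ p ∈ (T j).filter R, p ^ c j p,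
    fun j => ∏ p ∈ (T j).filter (fun p => ¬ R p), p ^ (c j p / e j),
    1 + ∑ j, ∑ p ∈ T j, c j p, Z, ?_, ?_, ?_, ?_⟩
  · -- squarefree
    apply Finset.squarefree_prod_of_pairwise_isCoprime
    · intro p hp q hq hpq
      have h1 := ((hS p).1 hp).1
      have h2 := ((hS q).1 hq).1
      show IsRelPrime p q
      rw [h1.1.isRelPrime_iff_not_dvd]
      intro h
      exact hpq ((h1.1.associated_of_dvd h2.1 h).eq_of_normalized h1.2.1 h2.2.1)
    · intro p hp
      exact ((hS p).1 hp).1.1.squarefree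
  · -- the factorization
    intro j
    rw [mul_assoc, ← Finset.prod_pow]
    have h1 : ∏ p ∈ (T j).filter (fun p => ¬ R p), (p ^ (c j p / e j)) ^ e j
        = ∏ p ∈ (T j).filter (fun p => ¬ R p), p ^ c j p := by
      refine Finset.prod_congr rfl fun p hp => ?_
      rw [← pow_mul, Nat.div_mul_cancel]
      by_contra hcon
      obtain ⟨h2, h3⟩ := Finset.mem_filter.1 hp
      have h4 := not_or.1 h3
      exact h4.1 ⟨not_exists.1 h4.2, j, hcon⟩
    rw [h1, Finset.prod_filter_mul_prod_filter_not]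
    exact hu j
  · -- the property of the bad factors
    intro W hW hWg j
    have hWS : ∀ p ∈ S, W p := fun p hp => hW.dvd p g hWg hg0 (hpg p hp)
    have hWu : ∀ u : Aˣ, W (u : A) := fun u => hW.dvd _ _ hW.one one_ne_zero u.isUnit.dvd
    have hWv : ∀ p i, Associated p (x i) → W p := fun p i h =>
      hW.dvd _ _ (hW.var i) (hx i).ne_zero h.dvd
    refine hW.mul _ _ (hWu _) (hW.prod _ _ fun p hp => hW.pow ?_ _)
    obtain ⟨h2, h3⟩ := Finset.mem_filter.1 hp
    have h2' : p ∈ (normalizedFactors (F j)).toFinset := h2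
    rw [Multiset.mem_toFinset, mem_normalizedFactors_iff' (hF j)] at h2'
    rcases h3 with h3 | ⟨i, hi⟩
    · exact hWS p ((hS p).2 ⟨⟨h2'.1, h2'.2.1, h2'.2.2.trans (hFd j)⟩, h3⟩)
    · exact hWv p i hi
  · -- valuations
    intro m hm B v hv hZB hxB hvx hFB hvF hvg
    have hTB : ∀ j, ∀ p ∈ T j, p ∈ B := fun j p hp => hZB p (hZT j p hp)
    have hSB : ∀ p ∈ S, p ∈ B := fun p hp => hZB p (hZS p hp)
    obtain ⟨p0, hp0, hvp0⟩ : ∃ p ∈ S, ex B v p ≠ 0 := by
      by_contra hcon
      push Not at hcon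
      have h1 : ex B v g = 0 := by
        rw [ex_prod hv S (fun p => p) hSB]
        exact Finset.sum_eq_zero hcon
      rw [h1] at hvg
      exact absurd hvg (by norm_num)
    have h1 : g = p0 * ∏ p ∈ S.erase p0, p := (Finset.mul_prod_erase S (fun p => p) hp0).symm
    have hmB : ∏ p ∈ S.erase p0, p ∈ B :=
      B.prod_mem fun p hp => hSB p (Finset.mem_of_mem_erase hp)
    have h2 : ex B v p0 = 1 ∧ ex B v (∏ p ∈ S.erase p0, p) = 0 := by
      rw [h1, ex_mul hv (hSB p0 hp0) hmB] at hvg
      have h3 := ex_nonneg hv p0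
      have h4 := ex_nonneg hv (∏ p ∈ S.erase p0, p)
      have h5 : ex B v p0 ≠ ⊤ := fun h => by rw [h, top_add] at hvg; exact absurd hvg (by decide)
      have h6 : ex B v (∏ p ∈ S.erase p0, p) ≠ ⊤ := fun h => by
        rw [h, add_top] at hvg; exact absurd hvg (by decide)
      lift ex B v p0 to ℤ using h5 with α
      lift ex B v (∏ p ∈ S.erase p0, p) to ℤ using h6 with β
      norm_cast at *
      omega
    have h3 : ∀ p ∈ S, p ≠ p0 → ex B v p = 0 := by
      intro p hp hne
      have h4 : p ∈ S.erase p0 := Finset.mem_erase.2 ⟨hne, hp⟩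
      have h5 : p * ∏ q ∈ (S.erase p0).erase p, q = ∏ q ∈ S.erase p0, q :=
        Finset.mul_prod_erase (S.erase p0) (fun p => p) h4
      apply ex_dvd hv (c := ∏ q ∈ (S.erase p0).erase p, q) (hSB p hp)
      · exact B.prod_mem fun q hq => hSB q (Finset.mem_of_mem_erase (Finset.mem_of_mem_erase hq))
      · rw [h5]
        exact h2.2
    obtain ⟨_, j, hj⟩ := ((hS p0).1 hp0).2
    obtain ⟨a, ha⟩ := hvF j
    have hFt : ex B v (F j) ≠ ⊤ := by rw [ha]; exact WithTop.coe_ne_top
    have hc0 : c j p0 ≠ 0 := by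
      intro h
      apply hj
      rw [h]
      exact dvd_zero _
    have hp0T : p0 ∈ T j := by
      show p0 ∈ (normalizedFactors (F j)).toFinset
      rw [Multiset.mem_toFinset]
      by_contra hcon
      exact hc0 (Multiset.count_eq_zero_of_notMem hcon)
    have huB : ((u j : Aˣ) : A) ∈ B := hZB _ (hZu j)
    have hvB : (((u j)⁻¹ : Aˣ) : A) ∈ B := hZB _ (hZv j)
    have hu0 : ex B v ((u j : Aˣ) : A) = 0 := by
      apply ex_dvd hv huB hvB
      rw [Units.mul_inv, ex_one hv]
    have hpowB : ∀ p ∈ T j, p ^ c j p ∈ B := fun p hp => B.pow_mem (hTB j p hp) _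
    have hfinp : ∀ p ∈ T j, ex B v p ≠ ⊤ := by
      intro p hp
      have hcp : c j p ≠ 0 := by
        have hp' : p ∈ (normalizedFactors (F j)).toFinset := hp
        rw [Multiset.mem_toFinset] at hp'
        exact Multiset.count_ne_zero.2 hp'
      obtain ⟨n, hn⟩ := Nat.exists_eq_succ_of_ne_zero hcp
      have h6 : F j = p * (u j * (p ^ n * ∏ q ∈ (T j).erase p, q ^ c j q)) := by
        have h7 : F j = u j * ∏ q ∈ T j, q ^ c j q := hu j
        rw [h7, ← Finset.mul_prod_erase (T j) (fun q => q ^ c j q) hp, hn, pow_succ]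
        ring
      rw [h6] at hFt
      exact ex_top hv (hTB j p hp) (B.mul_mem huB (B.mul_mem (B.pow_mem (hTB j p hp) _)
        (B.prod_mem fun q hq => hpowB q (Finset.mem_of_mem_erase hq)))) hFt
    have hQ : ∃ b : ℤ, ex B v (∏ p ∈ (T j).erase p0, p ^ c j p)
        = ((e j * b : ℤ) : WithTop ℤ) := by
      have hQ0 : (∏ p ∈ (T j).erase p0, p ^ c j p) ∈ B ∧
          ∃ b : ℤ, ex B v (∏ p ∈ (T j).erase p0, p ^ c j p) = ((e j * b : ℤ) : WithTop ℤ) := by
        refine Finset.prod_induction _ (fun a => a ∈ B ∧ ∃ b : ℤ,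
          ex B v a = ((e j * b : ℤ) : WithTop ℤ))
          ?_ ⟨B.one_mem, 0, by rw [ex_one hv]; simp⟩ ?_
        · rintro a b ⟨ha, α, hα⟩ ⟨hb, β, hβ⟩
          exact ⟨B.mul_mem ha hb, α + β, by rw [ex_mul hv ha hb, hα, hβ, ← WithTop.coe_add,
            mul_add]⟩
        · intro p hp
          obtain ⟨hne, hpT⟩ := Finset.mem_erase.1 hp
          refine ⟨hpowB p hpT, ?_⟩
          have hpB := hTB j p hpT
          have hpF := hfinp p hpT
          by_cases hbad : Bad p
          · have hpT' : p ∈ (normalizedFactors (F j)).toFinset := hpT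
            rw [Multiset.mem_toFinset, mem_normalizedFactors_iff' (hF j)] at hpT'
            have h4 : ex B v p = 0 := h3 p ((hS p).2 ⟨⟨hpT'.1, hpT'.2.1,
              hpT'.2.2.trans (hFd j)⟩, hbad⟩) hne
            refine ⟨0, ?_⟩
            rw [ex_pow hv hpB (α := 0) (by rw [h4]; rfl)]
            simp
          · by_cases hvar : ∃ i, Associated p (x i)
            · obtain ⟨i, hi⟩ := hcof p hvar
              have h4 : ex B v p = 0 := by
                apply ex_dvd hv hpB (hZB _ (hZc j p hpT))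
                rw [hi]
                exact hvx i
              refine ⟨0, ?_⟩
              rw [ex_pow hv hpB (α := 0) (by rw [h4]; rfl)]
              simp
            · have h4 : e j ∣ c j p := by
                by_contra hcon
                exact hbad ⟨not_exists.1 hvar, j, hcon⟩
              obtain ⟨n, hn⟩ := h4
              lift ex B v p to ℤ using hpF with α hα
              refine ⟨n * α, ?_⟩
              rw [ex_pow hv hpB hα.symm, hn]
              congr 1
              push_cast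
              ring
      exact hQ0.2
    obtain ⟨b, hb⟩ := hQ
    have h7 : F j = u j * (p0 ^ c j p0 * ∏ q ∈ (T j).erase p0, q ^ c j q) := by
      have h7 : F j = u j * ∏ q ∈ T j, q ^ c j q := hu j
      rw [h7, ← Finset.mul_prod_erase (T j) (fun q => q ^ c j q) hp0T]
    have hmB2 : (∏ q ∈ (T j).erase p0, q ^ c j q) ∈ B :=
      B.prod_mem fun q hq => hpowB q (Finset.mem_of_mem_erase hq)
    rw [h7, ex_mul hv huB (B.mul_mem (hpowB p0 hp0T) hmB2), ex_mul hv (hpowB p0 hp0T) hmB2, hu0,
      hb, zero_add, ex_pow hv (hSB p0 hp0) (α := 1) (by rw [h2.1]; rfl), ← WithTop.coe_add] at ha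
    have h5 := WithTop.coe_injective ha
    by_cases he : e j = 0
    · rw [if_pos he, he] at h5
      have h8 : c j p0 < m := by
        have h9 : c j p0 ≤ ∑ j, ∑ p ∈ T j, c j p :=
          (Finset.single_le_sum (f := fun p => c j p) (fun _ _ => Nat.zero_le _) hp0T).trans
            (Finset.single_le_sum (f := fun j => ∑ p ∈ T j, c j p) (fun _ _ => Nat.zero_le _)
              (Finset.mem_univ j))
        omega
      have h10 : (c j p0 : ℤ) = m * a := by
        push_cast at h5
        linarith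
      have h11 : (m : ℤ) ∣ (c j p0 : ℤ) := ⟨a, h10⟩
      have h12 : m ∣ c j p0 := by exact_mod_cast h11
      exact absurd (Nat.le_of_dvd (Nat.pos_of_ne_zero hc0) h12) (not_le.2 h8)
    · rw [if_neg he] at h5
      apply hj
      have h6 : (e j : ℤ) ∣ (c j p0 : ℤ) := ⟨a - b, by linarith⟩
      exact_mod_cast h6

end Pool.Agent.Y32.KG
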