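import Mathlib

/-!
Factors of polynomials which are homogeneous with respect to integral weights (helper32, job KG3
of helper192).
-/

set_option autoImplicit false

namespace Pool.Agent.Y32.KG

open MvPolynomial

section weights

variable {b : ℕ} {k : Type*} [Field k] (l : Fin b → ℤ)

/-- the weight of an exponent -/
def wt (c : Fin b →₀ ℕ) : ℤ := ∑ i, l i * c i

lemma wt_add (c d : Fin b →₀ ℕ) : wt l (c + d) = wt l c + wt l d := by
  unfold wt
  rw [← Finset.sum_add_distrib]
  refine Finset.sum_congr rfl fun i _ => ?_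
  rw [Finsupp.add_apply]
  push_cast
  ring

/-- the monomial with exponent `c` is multiplied by the power of the variable with exponent
`N + wt c` -/
noncomputable def P (N : ℕ) : MvPolynomial (Fin b) k →ₗ[k] Polynomial (MvPolynomial (Fin b) k) :=
  (basisMonomials (Fin b) k).constr k
    (fun c => Polynomial.C (monomial c 1) * Polynomial.X ^ ((N : ℤ) + wt l c).toNat)

lemma P_monomial (N : ℕ) (c : Fin b →₀ ℕ) (a : k) :
    P l N (monomial c a) =
      Polynomial.C (monomial c a) * Polynomial.X ^ ((N : ℤ) + wt l c).toNat := by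
  have h1 : (monomial c a : MvPolynomial (Fin b) k) = a • monomial c 1 := by
    rw [smul_monomial, smul_eq_mul, mul_one]
  have h2 : P l N (monomial c (1 : k)) =
      Polynomial.C (monomial c 1) * Polynomial.X ^ ((N : ℤ) + wt l c).toNat := by
    have h3 := (basisMonomials (Fin b) k).constr_basis k
      (fun c => Polynomial.C (monomial c (1 : k)) * Polynomial.X ^ ((N : ℤ) + wt l c).toNat) c
    rw [coe_basisMonomials] at h3
    exact h3
  rw [h1, map_smul, h2, ← Polynomial.smul_C, smul_mul_assoc]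

lemma P_coeff (N : ℕ) (p : MvPolynomial (Fin b) k) (j : ℕ) (d : Fin b →₀ ℕ) :
    coeff d ((P l N p).coeff j) = if ((N : ℤ) + wt l d).toNat = j then coeff d p else 0 := by
  classical
  induction p using MvPolynomial.induction_on' with
  | monomial c a =>
    rw [P_monomial, Polynomial.coeff_C_mul_X_pow]
    by_cases h : c = d
    · subst h
      by_cases h' : j = ((N : ℤ) + wt l c).toNat
      · rw [if_pos h', if_pos h'.symm]
      · rw [if_neg h', if_neg (fun h => h' h.symm), coeff_zero]
    · have h2 : coeff d (monomial c a : MvPolynomial (Fin b) k) = 0 := by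
        rw [coeff_monomial, if_neg h]
      rw [h2]
      split_ifs <;> simp [h2]
  | add p q hp hq =>
    rw [map_add, Polynomial.coeff_add, coeff_add, hp, hq, coeff_add]
    split_ifs <;> simp

lemma P_mul (N N' : ℕ) (p q : MvPolynomial (Fin b) k) (hp : ∀ c ∈ p.support, 0 ≤ N + wt l c)
    (hq : ∀ c ∈ q.support, 0 ≤ N' + wt l c) : P l (N + N') (p * q) = P l N p * P l N' q := by
  have h1 : p * q = ∑ c ∈ p.support, ∑ d ∈ q.support,
      monomial (c + d) (coeff c p * coeff d q) := by
    conv_lhs => rw [p.as_sum, q.as_sum, Finset.sum_mul_sum]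
    refine Finset.sum_congr rfl fun c _ => Finset.sum_congr rfl fun d _ => ?_
    rw [monomial_mul]
  have h2 : P l N p * P l N' q = ∑ c ∈ p.support, ∑ d ∈ q.support,
      P l N (monomial c (coeff c p)) * P l N' (monomial d (coeff d q)) := by
    conv_lhs => rw [p.as_sum, q.as_sum, map_sum, map_sum, Finset.sum_mul_sum]
  rw [h1, h2, map_sum]
  refine Finset.sum_congr rfl fun c hc => ?_
  rw [map_sum]
  refine Finset.sum_congr rfl fun d hd => ?_
  have h3 := hp c hc
  have h4 := hq d hd
  rw [P_monomial, P_monomial, P_monomial, wt_add]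
  have h5 : (((N + N' : ℕ) : ℤ) + (wt l c + wt l d)).toNat =
      ((N : ℤ) + wt l c).toNat + ((N' : ℤ) + wt l d).toNat := by
    push_cast
    omega
  rw [h5, pow_add, ← monomial_mul, Polynomial.C_mul]
  ring

/-- homogeneous with respect to the weights `l` -/
def Hl (p : MvPolynomial (Fin b) k) : Prop := ∃ a : ℤ, ∀ c ∈ p.support, wt l c = a

lemma P_homog {N : ℕ} {p : MvPolynomial (Fin b) k} {a : ℤ} (hp : ∀ c ∈ p.support, wt l c = a) :
    P l N p = Polynomial.C p * Polynomial.X ^ ((N : ℤ) + a).toNat := by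
  ext1 j
  ext d
  rw [P_coeff, Polynomial.coeff_C_mul_X_pow]
  by_cases h : coeff d p = 0
  · split_ifs <;> simp [h]
  · have h1 := hp d (mem_support_iff.2 h)
    by_cases h2 : j = ((N : ℤ) + a).toNat
    · rw [if_pos h2, if_pos (by rw [h1, h2])]
    · rw [if_neg h2, if_neg (by rw [h1]; exact fun h => h2 h.symm), coeff_zero]

lemma P_ne_zero (N : ℕ) {p : MvPolynomial (Fin b) k} (hp : p ≠ 0) : P l N p ≠ 0 := by
  obtain ⟨d, hd⟩ := MvPolynomial.ne_zero_iff.1 hp
  intro h
  apply hd
  have h1 := P_coeff l N p ((N : ℤ) + wt l d).toNat d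
  rw [h, if_pos rfl] at h1
  rw [← h1]
  simp

lemma exists_shift (p : MvPolynomial (Fin b) k) : ∃ N : ℕ, ∀ c ∈ p.support, 0 ≤ N + wt l c := by
  refine ⟨∑ c ∈ p.support, (wt l c).natAbs, fun c hc => ?_⟩
  have h1 : (wt l c).natAbs ≤ ∑ c ∈ p.support, (wt l c).natAbs :=
    Finset.single_le_sum (f := fun c => (wt l c).natAbs) (fun _ _ => Nat.zero_le _) hc
  omega

/-- a factor of a nonzero homogeneous polynomial is homogeneous -/
lemma Hl.of_mul {p q : MvPolynomial (Fin b) k} (h : Hl l (p * q)) (h0 : p * q ≠ 0) : Hl l p := by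
  have hp0 : p ≠ 0 := left_ne_zero_of_mul h0
  have hq0 : q ≠ 0 := right_ne_zero_of_mul h0
  obtain ⟨N, hN⟩ := exists_shift l p
  obtain ⟨N', hN'⟩ := exists_shift l q
  obtain ⟨a, ha⟩ := h
  have hP := P_ne_zero l N hp0
  have hQ := P_ne_zero l N' hq0
  have h1 := P_homog l (N := N + N') ha
  rw [P_mul l N N' p q hN hN'] at h1
  set D := (((N + N' : ℕ) : ℤ) + a).toNat with hD
  have hdeg : (P l N p).natDegree + (P l N' q).natDegree = D := by
    rw [← Polynomial.natDegree_mul hP hQ, h1, Polynomial.natDegree_C_mul_X_pow _ _ h0]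
  have htr : (P l N p).natTrailingDegree + (P l N' q).natTrailingDegree = D := by
    rw [← Polynomial.natTrailingDegree_mul hP hQ, h1, Polynomial.C_mul_X_pow_eq_monomial,
      Polynomial.natTrailingDegree_monomial h0]
  have hle1 := Polynomial.natTrailingDegree_le_natDegree (P l N p)
  have hle2 := Polynomial.natTrailingDegree_le_natDegree (P l N' q)
  refine ⟨(P l N p).natDegree - N, fun c hc => ?_⟩
  have h2 : (P l N p).coeff ((N : ℤ) + wt l c).toNat ≠ 0 := by
    intro h
    have h5 := P_coeff l N p ((N : ℤ) + wt l c).toNat c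
    rw [h, if_pos rfl, coeff_zero] at h5
    exact mem_support_iff.1 hc h5.symm
  have h3 := Polynomial.le_natDegree_of_ne_zero h2
  have h4 := Polynomial.natTrailingDegree_le_of_ne_zero h2
  have h5 := hN c hc
  omega

variable {l}

lemma Hl.of_dvd {p q : MvPolynomial (Fin b) k} (hq : Hl l q) (h0 : q ≠ 0) (h : p ∣ q) :
    Hl l p := by
  obtain ⟨r, rfl⟩ := h
  exact hq.of_mul l h0

lemma Hl.mul {p q : MvPolynomial (Fin b) k} (hp : Hl l p) (hq : Hl l q) : Hl l (p * q) := by
  classical
  obtain ⟨a, ha⟩ := hp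
  obtain ⟨a', ha'⟩ := hq
  refine ⟨a + a', fun c hc => ?_⟩
  obtain ⟨d, hd, d', hd', rfl⟩ := Finset.mem_add.1 (support_mul _ _ hc)
  rw [wt_add, ha d hd, ha' d' hd']

lemma Hl.one : Hl l (1 : MvPolynomial (Fin b) k) := by
  classical
  refine ⟨0, fun c hc => ?_⟩
  rw [mem_support_iff, coeff_one] at hc
  have h1 : (0 : Fin b →₀ ℕ) = c := by
    by_contra h
    exact hc (if_neg h)
  rw [← h1]
  unfold wt
  simp

lemma Hl.X (i : Fin b) : Hl l (X i : MvPolynomial (Fin b) k) := by
  classical
  refine ⟨wt l (Finsupp.single i 1), fun c hc => ?_⟩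
  rw [support_X, Finset.mem_singleton] at hc
  rw [hc]

end weights

end Pool.Agent.Y32.KG
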