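import Pool.Agent.Y192.KC.Stm2
import Pool.Agent.Y32.KG.Hm
import Pool.Agent.Y32.KG.BadA

/-!
The essential part of finitely many polynomials over a field (helper32, job KG3 of helper192).
-/

set_option autoImplicit false

namespace Pool.Agent.Y32.KG

open MvPolynomial Pool.Agent.Y537.KC Pool.Agent.Y192.KC Pool.Agent.Y192.OG

theorem t_badG : Pool.Agent.Y192.KC.St_badG := by
  intro k K _ _ _ _ b r X F e _ hF
  obtain ⟨g, H, S, m0, Z, h1, h2, h3, h4⟩ := badG
    (fun i : Fin b => (MvPolynomial.X i : MvPolynomial (Fin b) k)) (fun i => X_prime) F hF e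
  have hZ : ∃ Z' : Finset (MvPolynomial (Fin b) k), ∀ a ∈ Z, a ∈ Z' := ⟨Z, fun a ha => ha⟩
  refine ⟨g, H, S, m0, Z, h1, h2, ?_, ?_⟩
  · intro l hl j
    have hcl : Clo (fun i : Fin b => (MvPolynomial.X i : MvPolynomial (Fin b) k)) (Hl l) :=
      ⟨Hl.one, fun a b ha hb => ha.mul hb, fun a b hb h0 hab => hb.of_dvd h0 hab,
        fun i => Hl.X i⟩
    exact h3 (Hl l) hcl hl j
  · intro m hm R v hv hZR gr Fr Xr hgr hFr hXr hX hFv
    let B : Subring (MvPolynomial (Fin b) k) :=
      R.comap ((aeval X : MvPolynomial (Fin b) k →ₐ[k] K) : MvPolynomial (Fin b) k →+* K)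
    have hB : ∀ a, a ∈ B ↔ aeval X a ∈ R := fun a => Iff.rfl
    let w : B → WithTop ℤ := fun a => v ⟨aeval X a.1, a.2⟩
    have hw : Val w := by
      refine ⟨?_, ?_, fun a => hv.nonneg _⟩
      · show v ⟨aeval X (1 : MvPolynomial (Fin b) k), _⟩ = 0
        rw [← hv.one]
        congr 1
        exact Subtype.ext (map_one _)
      · intro a c
        show v ⟨aeval X (a.1 * c.1), _⟩ = v _ + v _
        rw [← hv.mul]
        congr 1
        exact Subtype.ext (map_mul _ _ _)
    have key : ∀ (a : MvPolynomial (Fin b) k) (y : R), (y : K) = aeval X a →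
        a ∈ B ∧ ex B w a = v y := by
      intro a y hy
      have ha : a ∈ B := by
        rw [hB, ← hy]
        exact y.2
      refine ⟨ha, ?_⟩
      rw [ex_of_mem ha]
      show v ⟨aeval X a, _⟩ = v y
      congr 1
      exact Subtype.ext hy.symm
    have hXk : ∀ i, (Xr i : K) = aeval X (MvPolynomial.X i : MvPolynomial (Fin b) k) := by
      intro i
      rw [aeval_X]
      exact hXr i
    rw [← (key g gr hgr).2]
    refine h4 m hm B w hw (fun a ha => (hB a).2 (hZR a ha)) (fun i => (key _ _ (hXk i)).1)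
      (fun i => ?_) (fun j => (key _ _ (hFr j)).1) (fun j => ?_)
    · rw [(key _ _ (hXk i)).2]
      exact hX i
    · rw [(key _ _ (hFr j)).2]
      exact hFv j

end Pool.Agent.Y32.KG
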