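import Pool.Agent.Y192.KC.Stm2
import Pool.Agent.Y852.OG.Ctl
import Pool.Agent.Y852.OG.Ring
import Pool.Agent.Y221.AB.Wei

/-!
Quotients of curves near infinity (helper32, job KG1 of helper192).
-/

set_option autoImplicit false

namespace Pool.Agent.Y32.KG

open Filter Metric Set Topology Pool.Agent.W603.BP Pool.Agent.Y192.KC Pool.Agent.Y192.OG

section monomials

variable {N : ℕ} (c : Curve N)

lemma monf_zero (z : ℂ) : c.monf 0 z = 1 := by
  unfold Curve.monf
  simp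

lemma monf_add' (m m' : Fin N → ℤ) {z : ℂ} (hz : z ∈ c.U) :
    c.monf (m + m') z = c.monf m z * c.monf m' z := by
  unfold Curve.monf
  rw [← Finset.prod_mul_distrib]
  exact Finset.prod_congr rfl fun i _ => by rw [Pi.add_apply, zpow_add₀ (c.xf_ne i hz)]

lemma monf_zsmul (a : ℤ) (m : Fin N → ℤ) (z : ℂ) :
    c.monf (a • m) z = c.monf m z ^ a := by
  unfold Curve.monf
  rw [← Finset.prod_zpow]
  refine Finset.prod_congr rfl fun i _ => ?_
  rw [Pi.smul_apply, smul_eq_mul, mul_comm, zpow_mul]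

lemma monf_sum {ρ : ℕ} (γ : Fin ρ → Fin N → ℤ) (s : Finset (Fin ρ)) (a : Fin ρ → ℤ) {z : ℂ}
    (hz : z ∈ c.U) : c.monf (∑ i ∈ s, a i • γ i) z = ∏ i ∈ s, c.monf (γ i) z ^ a i := by
  classical
  induction s using Finset.induction_on with
  | empty => rw [Finset.sum_empty, Finset.prod_empty, monf_zero]
  | insert i s hi ih =>
    rw [Finset.sum_insert hi, Finset.prod_insert hi, monf_add' c _ _ hz, monf_zsmul, ih]

/-- the order of a monomial -/
lemma ord_monf (m : Fin N → ℤ) {z : ℂ} (hz : z ∈ Ext c.r0) :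
    meromorphicOrderAt (c.monf m) z = (c.del z m : ℤ) := by
  have h1 := ((Pool.Agent.Y852.OG.t_ord N c).1 z hz).2.2.2.2.2 m
  rw [← h1]
  unfold Curve.ord
  apply meromorphicOrderAt_congr
  filter_upwards [c.U_punct hz] with w hw
  exact (c.val_mon m hw).symm

lemma del_zero (z : ℂ) : c.del z 0 = 0 := by
  unfold Curve.del
  simp

lemma ord_zero' {z : ℂ} : c.ord z 0 = ⊤ := by
  unfold Curve.ord
  rw [meromorphicOrderAt_eq_top_iff]
  refine Eventually.of_forall fun w => ?_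
  unfold Curve.val
  by_cases h : w ∈ c.U
  · rw [c.ext_of_mem _ h]
    rfl
  · rw [c.ext_of_notMem _ h]

/-- an element of the ring with infinite order at a point vanishes -/
lemma eq_zero_of_top {f : c.Mr} {z : ℂ} (hz : z ∈ Ext c.r0) (h : c.ord z f = ⊤) : f = 0 := by
  by_contra hf
  exact (Pool.Agent.Y852.OG.t_ring N c).2.2.2 f hf z hz h

end monomials

theorem t_quot : St_quot := by
  classical
  intro N ρ c γ
  have hr : 0 < c.r0 := c.r0_pos
  have hsub : Ext (c.r0 + 1) ⊆ Ext c.r0 := Ext_mono (by linarith)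
  -- the exponents
  let γ' : Fin (ρ + 1) → Fin N → ℤ := Fin.cons 0 γ
  have hγ0 : γ' 0 = 0 := rfl
  have hγs : ∀ i : Fin ρ, γ' i.succ = γ i := fun i => rfl
  -- the multiplicities
  let μ : ℂ → ℕ := fun z => if z ∈ Ext (c.r0 + 1) then
    Finset.univ.sup (fun k => (-c.del z (γ' k)).toNat) else 0
  have hμ1 : ∀ z ∈ Ext (c.r0 + 1), ∀ k, -c.del z (γ' k) ≤ (μ z : ℤ) := by
    intro z hz k
    have h1 : (-c.del z (γ' k)).toNat ≤ Finset.univ.sup (fun k => (-c.del z (γ' k)).toNat) :=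
      Finset.le_sup (f := fun k => (-c.del z (γ' k)).toNat) (Finset.mem_univ k)
    have h2 : μ z = Finset.univ.sup (fun k => (-c.del z (γ' k)).toNat) := if_pos hz
    omega
  have hμ2 : ∀ z ∈ Ext (c.r0 + 1), ∃ k, (μ z : ℤ) = -c.del z (γ' k) := by
    intro z hz
    obtain ⟨k, _, hk⟩ := Finset.exists_mem_eq_sup Finset.univ Finset.univ_nonempty
      (fun k => (-c.del z (γ' k)).toNat)
    have h2 : μ z = Finset.univ.sup (fun k => (-c.del z (γ' k)).toNat) := if_pos hz
    rcases le_or_gt 0 (-c.del z (γ' k)) with h | h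
    · exact ⟨k, by omega⟩
    · refine ⟨0, ?_⟩
      rw [hγ0, del_zero]
      omega
  have hord := Pool.Agent.Y852.OG.t_ord N c
  have hUdel : ∀ z ∈ c.U, ∀ m, c.del z m = 0 := hord.2.1
  have hμU : ∀ z ∈ c.U, μ z = 0 := by
    intro z hz
    by_cases h : z ∈ Ext (c.r0 + 1)
    · obtain ⟨k, hk⟩ := hμ2 z h
      rw [hUdel z hz] at hk
      omega
    · exact if_neg h
  have hfin : ∀ R : ℝ, ({a | μ a ≠ 0} ∩ closedBall 0 R).Finite := by
    intro R
    have h1 : (⋃ k : Fin (ρ + 1), {z : ℂ | c.r0 + 1 ≤ ‖z‖ ∧ ‖z‖ ≤ R ∧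
        (c.del z (γ' k) : ℝ) ≠ 0}).Finite :=
      Set.finite_iUnion fun k => (hord.2.2.2.2.2.2.2 (γ' k)) R
    refine h1.subset ?_
    rintro z ⟨hz1, hz2⟩
    have hzE : z ∈ Ext (c.r0 + 1) := by
      by_contra h
      exact hz1 (if_neg h)
    obtain ⟨k, hk⟩ := hμ2 z hzE
    rw [Set.mem_iUnion]
    have hzE' : c.r0 + 1 < ‖z‖ := hzE
    refine ⟨k, hzE'.le, by simpa using hz2, ?_⟩
    intro h
    have h2 : c.del z (γ' k) = 0 := by exact_mod_cast h
    apply hz1
    show μ z = 0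
    omega
  obtain ⟨h, hd, hh⟩ := Pool.Agent.Y221.AB.weier μ hfin
  have hhan : ∀ z, AnalyticAt ℂ h z := fun z => hd.analyticAt z
  -- the meromorphic functions
  let f : Fin (ρ + 1) → ℂ → ℂ := fun k z => h z * c.monf (γ' k) z
  have hfm : ∀ k, MeromorphicOn (f k) (Ext (c.r0 + 1)) := by
    intro k z hz
    exact (hhan z).meromorphicAt.fun_mul (c.monf_mero (γ' k) z (hsub hz))
  have hford : ∀ k, ∀ z ∈ Ext (c.r0 + 1),
      meromorphicOrderAt (f k) z = (((μ z : ℤ) + c.del z (γ' k) : ℤ) : WithTop ℤ) := by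
    intro k z hz
    have h1 : meromorphicOrderAt (f k) z = meromorphicOrderAt h z +
        meromorphicOrderAt (c.monf (γ' k)) z :=
      meromorphicOrderAt_mul (hhan z).meromorphicAt (c.monf_mero (γ' k) z (hsub hz))
    rw [h1, ord_monf c _ (hsub hz), (hhan z).meromorphicOrderAt_eq, hh z]
    rw [WithTop.coe_add]
    rfl
  let X : Fin (ρ + 1) → ℂ → ℂ := fun k => toMeromorphicNFOn (f k) (Ext (c.r0 + 1))
  have hXnf : ∀ k, ∀ z ∈ Ext (c.r0 + 1), MeromorphicNFAt (X k) z := fun k z hz =>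
    meromorphicNFOn_toMeromorphicNFOn (f k) (Ext (c.r0 + 1)) hz
  have hXord : ∀ k, ∀ z ∈ Ext (c.r0 + 1),
      meromorphicOrderAt (X k) z = (((μ z : ℤ) + c.del z (γ' k) : ℤ) : WithTop ℤ) := by
    intro k z hz
    rw [← hford k z hz]
    exact meromorphicOrderAt_toMeromorphicNFOn (hfm k) hz
  have hXan : ∀ k, AnalyticOnNhd ℂ (X k) (Ext (c.r0 + 1)) := by
    intro k z hz
    rw [← (hXnf k z hz).meromorphicOrderAt_nonneg_iff_analyticAt, hXord k z hz]
    have h1 := hμ1 z hz k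
    have h2 : 0 ≤ (μ z : ℤ) + c.del z (γ' k) := by linarith
    exact_mod_cast h2
  have hXU : ∀ k, ∀ z ∈ Ext (c.r0 + 1), z ∈ c.U → X k z = h z * c.monf (γ' k) z := by
    intro k z hz hzU
    have h1 : AnalyticAt ℂ (f k) z := (hhan z).fun_mul (c.monf_an (γ' k) z hzU)
    show toMeromorphicNFOn (f k) (Ext (c.r0 + 1)) z = f k z
    rw [toMeromorphicNFOn_eq_toMeromorphicNFAt (hfm k) hz,
      toMeromorphicNFAt_eq_self.2 h1.meromorphicNFAt]
  have hhU : ∀ z ∈ c.U, h z ≠ 0 := by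
    intro z hz
    have h1 := hh z
    rw [hμU z hz] at h1
    exact (hhan z).analyticOrderAt_eq_zero.1 (by simpa using h1)
  have hXne : ∀ k, ∀ z ∈ Ext (c.r0 + 1), z ∈ c.U → X k z ≠ 0 := by
    intro k z hz hzU
    rw [hXU k z hz hzU]
    exact mul_ne_zero (hhU z hzU) (c.monf_ne _ hzU)
  have hXo : ∀ k, ∀ z ∈ Ext (c.r0 + 1),
      ((analyticOrderAt (X k) z).toNat : ℤ) = (μ z : ℤ) + c.del z (γ' k) := by
    intro k z hz
    have h1 := hXord k z hz
    rw [(hXan k z hz).meromorphicOrderAt_eq] at h1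
    have h2 : analyticOrderAt (X k) z ≠ ⊤ := by
      intro h3
      rw [h3] at h1
      exact WithTop.top_ne_coe h1
    obtain ⟨n, hn⟩ := ENat.ne_top_iff_exists.1 h2
    rw [← hn] at h1 ⊢
    have h3 : (((n : ℤ)) : WithTop ℤ) = (((μ z : ℤ) + c.del z (γ' k) : ℤ) : WithTop ℤ) := h1
    have h4 := WithTop.coe_injective h3
    rw [← h4]
    rfl
  have hex : ∃ z ∈ Ext (c.r0 + 1), z ∈ c.U := by
    obtain ⟨z0, hz0⟩ := Ext_nonempty (c.r0 + 1)
    have h1 : ∀ᶠ w in 𝓝[≠] z0, w ∈ c.U ∧ w ∈ Ext (c.r0 + 1) :=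
      (c.U_punct (hsub hz0)).and (nhdsWithin_le_nhds ((Ext_open (c.r0 + 1)).mem_nhds hz0))
    obtain ⟨w, hw1, hw2⟩ := h1.exists
    exact ⟨w, hw2, hw1⟩
  -- the curve
  let c' : Curve ρ :=
    { r0 := c.r0 + 1
      X := X
      hr0 := by have := c.hr0; linarith
      an := hXan
      ncz := by
        intro z hz
        obtain ⟨k, hk⟩ := hμ2 z hz
        refine ⟨k, ?_⟩
        rw [← (hXnf k z hz).meromorphicOrderAt_eq_zero_iff, hXord k z hz, hk, neg_add_cancel]
        rfl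
      nz := by
        intro k
        obtain ⟨z, hz, hzU⟩ := hex
        exact ⟨z, hz, hXne k z hz hzU⟩ }
  have hc'r : c'.r0 = c.r0 + 1 := rfl
  have hU' : ∀ z ∈ Ext (c.r0 + 1), z ∈ c.U → z ∈ c'.U := fun z hz hzU =>
    ⟨hz, fun k => hXne k z hz hzU⟩
  have hxf : ∀ z ∈ Ext (c.r0 + 1), z ∈ c.U → ∀ i, c'.xf i z = c.monf (γ i) z := by
    intro z hz hzU i
    show X i.succ z / X 0 z = _
    rw [hXU _ z hz hzU, hXU _ z hz hzU, hγ0, hγs, monf_zero, mul_one,
      mul_div_cancel_left₀ _ (hhU z hzU)]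
  -- the values
  have hval : ∀ (g : Lau ρ), ∀ z ∈ Ext (c.r0 + 1), z ∈ c.U →
      c'.val (c'.ev g) z = c.val (c.ev (lm γ g)) z := by
    intro g z hz hzU
    have hz' := hU' z hz hzU
    induction g using AddMonoidAlgebra.induction_linear with
    | zero =>
      rw [map_zero, map_zero, map_zero]
      unfold Curve.val
      rw [c'.ext_of_mem _ hz', c.ext_of_mem _ hzU]
      rfl
    | add g1 g2 h1 h2 =>
      rw [map_add, map_add, map_add, c'.val_add, c.val_add, Pi.add_apply, Pi.add_apply, h1, h2]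
    | single a x =>
      have h1 : lm γ (AddMonoidAlgebra.single a x) =
          AddMonoidAlgebra.single (∑ i, a i • γ i) x := by
        unfold lm
        rw [AddMonoidAlgebra.lift_single]
        show x • AddMonoidAlgebra.single (∑ i, a i • γ i) (1 : ℂ) = _
        rw [AddMonoidAlgebra.smul_single, smul_eq_mul, mul_one]
      rw [h1, c'.ev_single, c.ev_single, c'.val_smul, c.val_smul, c'.val_mon _ hz',
        c.val_mon _ hzU, monf_sum c γ Finset.univ a hzU]
      congr 1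
      unfold Curve.monf
      refine Finset.prod_congr rfl fun i _ => ?_
      rw [hxf z hz hzU i]
      rfl
  have hordeq : ∀ (g : Lau ρ), ∀ z ∈ Ext (c.r0 + 1),
      c'.ord z (c'.ev g) = c.ord z (c.ev (lm γ g)) := by
    intro g z hz
    unfold Curve.ord
    apply meromorphicOrderAt_congr
    filter_upwards [c.U_punct (hsub hz), nhdsWithin_le_nhds
      ((Ext_open (c.r0 + 1)).mem_nhds hz)] with w hw1 hw2
    exact hval g w hw2 hw1
  refine ⟨c', rfl, fun z hz hzU => ⟨hU' z hz hzU, hxf z hz hzU⟩, ?_, ?_, fun g z hz =>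
    hordeq g z hz⟩
  · intro m hm k z hz
    have hz1 : z ∈ Ext (c.r0 + 1) := hz
    have h1 : c'.oX k z = (μ z : ℤ) + c.del z (γ' k) := hXo k z hz1
    have h2 : ∀ k, (m : ℤ) ∣ c.del z (γ' k) := by
      intro k
      unfold Curve.del
      refine Finset.dvd_sum fun i _ => ?_
      exact Dvd.dvd.mul_left (dvd_sub (hm i.succ z (hsub hz1)) (hm 0 z (hsub hz1))) _
    obtain ⟨k', hk'⟩ := hμ2 z hz1
    rw [h1, hk']
    exact dvd_add ((h2 k').neg_right) (h2 k)
  · intro g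
    obtain ⟨z, hz⟩ := Ext_nonempty (c.r0 + 1)
    have h1 := hordeq g z hz
    constructor
    · intro h0
      rw [h0, ord_zero'] at h1
      exact eq_zero_of_top c (hsub hz) h1.symm
    · intro h0
      rw [h0, ord_zero'] at h1
      exact eq_zero_of_top c' hz h1

end Pool.Agent.Y32.KG
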